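import Pool.Agent.Helper39.QM.All

set_option autoImplicit false

open Metric Set

namespace Pool.Agent.Results.MP_7d58db_an.BombieriAsymptotics

/-- The asymptotics of `c_n^*`: for every `n ≥ 2` the supremum `c = c_n^*` of the quotients
`|Re (n - a_n)| / Re (2 - a_2)` over the functions `f ≠ k` of the class `S` is finite and
`|c_n^* - n^3 log n / 4| ≤ C n^3 √(log n)` with an absolute constant `C`. -/
theorem result : ∃ C : ℝ, ∀ n : ℕ, 2 ≤ n → ∃ c : ℝ,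
    IsLUB {x : ℝ | ∃ f : ℂ → ℂ,
      (DifferentiableOn ℂ f (ball 0 1) ∧ InjOn f (ball 0 1) ∧ f 0 = 0 ∧ deriv f 0 = 1) ∧
      ¬ EqOn f (fun z => z / (1 - z) ^ 2) (ball 0 1) ∧
      x = |((n : ℂ) - iteratedDeriv n f 0 / (n.factorial : ℂ)).re|
        / (2 - iteratedDeriv 2 f 0 / 2).re} c ∧
    |c - (n : ℝ) ^ 3 * Real.log n / 4| ≤ C * (n : ℝ) ^ 3 * Real.sqrt (Real.log n) := by
  obtain ⟨C, hC⟩ := Helper39.QM.T2_full
  refine ⟨C, fun n hn => ?_⟩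
  obtain ⟨c, hc1, hc2⟩ := hC n hn
  refine ⟨c, ?_, hc2⟩
  have e : ((Nat.factorial 2 : ℕ) : ℂ) = 2 := by norm_num [Nat.factorial]
  have hset : {x : ℝ | ∃ f : ℂ → ℂ,
      (DifferentiableOn ℂ f (ball 0 1) ∧ InjOn f (ball 0 1) ∧ f 0 = 0 ∧ deriv f 0 = 1) ∧
      ¬ EqOn f (fun z => z / (1 - z) ^ 2) (ball 0 1) ∧
      x = |((n : ℂ) - iteratedDeriv n f 0 / (n.factorial : ℂ)).re|
        / (2 - iteratedDeriv 2 f 0 / 2).re} = Helper64.C3.ratios n := by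
    ext x
    simp only [Helper64.C3.ratios, Helper64.C3.ClassS, Helper64.C3.coeff, mem_setOf_eq, e]
    rfl
  rw [hset]
  exact hc1

end Pool.Agent.Results.MP_7d58db_an.BombieriAsymptotics
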