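import Pool.Agent.Helper32.DX.Main

/-!
# Sharp lower bounds for `|a₃|`, `|a₄|`, `|a₅|` in terms of `|a₂|`, and the exact constants of Q2 for `n ≤ 5`
-/

set_option autoImplicit false

open Metric Set

namespace Pool.Agent.Results.MP_7d58db_an.ExactSmallConstants

/-- The class `S` of normalised univalent functions on the unit disc. -/
def S : Set (ℂ → ℂ) :=
  {f | DifferentiableOn ℂ f (ball 0 1) ∧ InjOn f (ball 0 1) ∧ f 0 = 0 ∧ deriv f 0 = 1}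

/-- The `n`-th Taylor coefficient at `0`. -/
noncomputable def a (n : ℕ) (f : ℂ → ℂ) : ℂ := iteratedDeriv n f 0 / (n.factorial : ℂ)

/-- For `f ∈ S` one has `|a₃| ≥ |a₂|² - 1`, `|a₄| ≥ |a₂|³ - 2 |a₂|` and, if `|a₂|² ≥ (3 - √5)/2`,
`|a₅| ≥ |a₂|⁴ - 3 |a₂|² + 1`; for every value `w = a₂ ∈ [0, 2]` equality holds in all three for one
function. For `n = 2, 3, 4, 5` the least constant in `n - |a_n| ≤ K (2 - |a₂|)` on `S` is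
`n (n² - 1) / 6`. -/
theorem result :
    (∀ f ∈ S,
      ‖a 2 f‖ ^ 2 - 1 ≤ ‖a 3 f‖ ∧
      ‖a 2 f‖ ^ 3 - 2 * ‖a 2 f‖ ≤ ‖a 4 f‖ ∧
      ((3 - Real.sqrt 5) / 2 ≤ ‖a 2 f‖ ^ 2 → ‖a 2 f‖ ^ 4 - 3 * ‖a 2 f‖ ^ 2 + 1 ≤ ‖a 5 f‖)) ∧
    (∀ w : ℝ, 0 ≤ w → w ≤ 2 → ∃ f ∈ S, a 2 f = (w : ℂ) ∧
      a 3 f = (w : ℂ) ^ 2 - 1 ∧ a 4 f = (w : ℂ) ^ 3 - 2 * w ∧
      a 5 f = (w : ℂ) ^ 4 - 3 * w ^ 2 + 1) ∧
    (∀ n : ℕ, 2 ≤ n → n ≤ 5 → ∀ K : ℝ,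
      (∀ f ∈ S, (n : ℝ) - ‖a n f‖ ≤ K * (2 - ‖a 2 f‖)) ↔ (n : ℝ) * ((n : ℝ) ^ 2 - 1) / 6 ≤ K) :=
  Helper32.DX.main

end Pool.Agent.Results.MP_7d58db_an.ExactSmallConstants
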