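import Pool.Agent.Helper32.B4.Main

/-!
# The exact constant `c_4^*`

`c_4^*`, the supremum of `|Re (4 - a_4)| / Re (2 - a_2)` over the class `S` without the Koebe function, is the top of an
explicit quadratic form on the unit sphere of `L^2(0,1)`; `19.97 < c_4^* ≤ 19.98`.
-/

set_option autoImplicit false

open Metric Set

namespace Pool.Agent.Results.MP_7d58db_an.FourthConstant

/-- The quadratic form
`∫_0^1 (10 - 24u + 16u^2) s(u)^2 du + 8 ∫_0^1 s(u) ∫_u^1 (6 - 3u - 2v) s(v) dv du`. -/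
noncomputable def form (s : ℝ → ℝ) : ℝ :=
  (∫ u in (0:ℝ)..1, (10 - 24 * u + 16 * u ^ 2) * s u ^ 2) +
  8 * ∫ u in (0:ℝ)..1, s u * ∫ v in u..1, (6 - 3 * u - 2 * v) * s v

/-- `c_4^*` is the supremum of `form s` over the continuous `s` with `∫_0^1 s^2 = 1`. -/
theorem result : ∃ c : ℝ, 19.97 < c ∧ c ≤ 19.98 ∧
    IsLUB {x : ℝ | ∃ s : ℝ → ℝ, Continuous s ∧ (∫ u in (0:ℝ)..1, s u ^ 2) = 1 ∧ x = form s} c ∧
    IsLUB {x : ℝ | ∃ f : ℂ → ℂ,
      (DifferentiableOn ℂ f (ball 0 1) ∧ InjOn f (ball 0 1) ∧ f 0 = 0 ∧ deriv f 0 = 1) ∧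
      ¬ EqOn f (fun z => z / (1 - z) ^ 2) (ball 0 1) ∧
      x = |(4 - iteratedDeriv 4 f 0 / (Nat.factorial 4 : ℂ)).re|
        / (2 - iteratedDeriv 2 f 0 / (Nat.factorial 2 : ℂ)).re} c := by
  obtain ⟨c, h1, h2, h3, h4⟩ := Helper32.B4.main
  refine ⟨c, h1, h2, h3, ?_⟩
  have hset : {x : ℝ | ∃ f : ℂ → ℂ,
      (DifferentiableOn ℂ f (ball 0 1) ∧ InjOn f (ball 0 1) ∧ f 0 = 0 ∧ deriv f 0 = 1) ∧
      ¬ EqOn f (fun z => z / (1 - z) ^ 2) (ball 0 1) ∧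
      x = |(4 - iteratedDeriv 4 f 0 / (Nat.factorial 4 : ℂ)).re|
        / (2 - iteratedDeriv 2 f 0 / (Nat.factorial 2 : ℂ)).re} = Helper64.C3.ratios 4 := by
    have e : ((4 : ℕ) : ℂ) = 4 := by norm_num
    ext x
    simp only [Helper64.C3.ratios, Helper64.C3.ClassS, Helper64.C3.coeff, mem_setOf_eq, e]
    rfl
  rw [hset]
  exact h4

end Pool.Agent.Results.MP_7d58db_an.FourthConstant
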