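import Pool.Agent.Helper39.QM.All

set_option autoImplicit false

open Metric Set

namespace Pool.Agent.Results.MP_7d58db_an.ModulusOrder

/-- Question Q2 with the exact order of the best constant: `|n - |a_n|| ≤ C n^3 (2 - |a_2|)` on the
whole class `S` for every `n ≥ 2`, with an absolute constant `C`, and every constant `K` with
`|n - |a_n|| ≤ K (2 - |a_2|)` on the class satisfies `K ≥ n (n^2 - 1) / 6`. -/
theorem result :
    (∃ C : ℝ, ∀ n : ℕ, 2 ≤ n → ∀ f : ℂ → ℂ,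
      DifferentiableOn ℂ f (ball 0 1) → InjOn f (ball 0 1) → f 0 = 0 → deriv f 0 = 1 →
      |(n : ℝ) - ‖iteratedDeriv n f 0 / (n.factorial : ℂ)‖|
        ≤ C * (n : ℝ) ^ 3 * (2 - ‖iteratedDeriv 2 f 0 / 2‖)) ∧
    (∀ n : ℕ, 2 ≤ n → ∀ K : ℝ, (∀ f : ℂ → ℂ,
      DifferentiableOn ℂ f (ball 0 1) → InjOn f (ball 0 1) → f 0 = 0 → deriv f 0 = 1 →
      |(n : ℝ) - ‖iteratedDeriv n f 0 / (n.factorial : ℂ)‖|
        ≤ K * (2 - ‖iteratedDeriv 2 f 0 / 2‖)) →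
      (n : ℝ) * ((n : ℝ) ^ 2 - 1) / 6 ≤ K) := by
  have e : ((Nat.factorial 2 : ℕ) : ℂ) = 2 := by norm_num [Nat.factorial]
  obtain ⟨⟨C, hC⟩, hL⟩ := Helper39.QM.T1_full
  refine ⟨⟨C, fun n hn f hd hi h0 h1 => ?_⟩, fun n hn K hK => ?_⟩
  · have h := hC n hn f ⟨hd, hi, h0, h1⟩
    unfold Helper64.C3.coeff at h
    rw [e] at h
    exact h
  · apply hL n hn K
    intro f hf
    have h := hK f hf.1 hf.2.1 hf.2.2.1 hf.2.2.2
    unfold Helper64.C3.coeff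
    rw [e]
    exact h

end Pool.Agent.Results.MP_7d58db_an.ModulusOrder
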